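import Pool.Agent.Q289.BG.Stm

/-! Project BG, job CUB (helper204 for helper289): the Poincare inequality of the discrete cube. -/

set_option autoImplicit false

namespace Pool.Agent.Q204.BG

open Q289.BG

theorem sum_cons (n : ℕ) (F : (Fin (n + 1) → Bool) → ℝ) :
    ∑ σ, F σ = ∑ τ : Fin n → Bool, F (Fin.cons true τ) + ∑ τ : Fin n → Bool, F (Fin.cons false τ) := by
  rw [← (Fin.consEquiv (fun _ : Fin (n + 1) => Bool)).sum_comp, Fintype.sum_prod_type, Fintype.sum_bool]
  rfl

theorem cub_fin : ∀ (n : ℕ) (m : (Fin n → Bool) → ℝ),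
    (2 : ℝ) ^ n * ∑ σ, m σ ^ 2 - (∑ σ, m σ) ^ 2 ≤
      (2 : ℝ) ^ n / 4 * ∑ i, ∑ σ, (m σ - m (Function.update σ i (!σ i))) ^ 2 := by
  intro n
  induction n with
  | zero =>
    intro m
    simp
  | succ n ih =>
    intro m
    have h0 := ih (fun τ => m (Fin.cons true τ))
    have h1 := ih (fun τ => m (Fin.cons false τ))
    have e1 : ∑ i : Fin (n + 1), ∑ σ, (m σ - m (Function.update σ i (!σ i))) ^ 2 =
        2 * ∑ τ : Fin n → Bool, (m (Fin.cons true τ) - m (Fin.cons false τ)) ^ 2 +
        (∑ i : Fin n, ∑ τ : Fin n → Bool,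
          (m (Fin.cons true τ) - m (Fin.cons true (Function.update τ i (!τ i)))) ^ 2 +
        ∑ i : Fin n, ∑ τ : Fin n → Bool,
          (m (Fin.cons false τ) - m (Fin.cons false (Function.update τ i (!τ i)))) ^ 2) := by
      rw [Fin.sum_univ_succ, ← Finset.sum_add_distrib]
      congr 1
      · rw [sum_cons, two_mul]
        congr 1
        · refine Finset.sum_congr rfl fun τ _ => ?_
          rw [Fin.cons_zero, Fin.update_cons_zero]
          rfl
        · refine Finset.sum_congr rfl fun τ _ => ?_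
          rw [Fin.cons_zero, Fin.update_cons_zero]
          change (m (Fin.cons false τ) - m (Fin.cons true τ)) ^ 2 = _
          ring
      · refine Finset.sum_congr rfl fun i _ => ?_
        rw [sum_cons]
        simp only [Fin.cons_succ, Fin.cons_update]
    have h2 : (∑ τ : Fin n → Bool, (m (Fin.cons true τ) - m (Fin.cons false τ))) ^ 2 ≤
        (2 : ℝ) ^ n * ∑ τ : Fin n → Bool, (m (Fin.cons true τ) - m (Fin.cons false τ)) ^ 2 := by
      have := sq_sum_le_card_mul_sum_sq (s := (Finset.univ : Finset (Fin n → Bool)))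
        (f := fun τ => m (Fin.cons true τ) - m (Fin.cons false τ))
      simpa using this
    rw [Finset.sum_sub_distrib] at h2
    rw [sum_cons, sum_cons, e1, pow_succ]
    nlinarith

theorem cub : S_CUB := by
  intro ι _ _ m
  set e := Fintype.equivFin ι with he
  have h := cub_fin (Fintype.card ι) (fun σ => m (σ ∘ e))
  have k : ∀ G : (ι → Bool) → ℝ, ∑ σ : Fin (Fintype.card ι) → Bool, G (σ ∘ e) = ∑ τ, G τ := by
    intro G
    rw [← (Equiv.arrowCongr e.symm (Equiv.refl Bool)).sum_comp]
    rfl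
  have k2 : ∑ i, ∑ σ : Fin (Fintype.card ι) → Bool,
      (m (σ ∘ e) - m (Function.update σ i (!σ i) ∘ e)) ^ 2 =
      ∑ i, ∑ σ, (m σ - m (Function.update σ i (!σ i))) ^ 2 := by
    rw [← e.sum_comp]
    refine Finset.sum_congr rfl fun i _ => ?_
    rw [← k]
    refine Finset.sum_congr rfl fun σ _ => ?_
    rw [Function.update_comp_equiv, Equiv.symm_apply_apply]
    rfl
  rw [k (fun σ => m σ ^ 2), k (fun σ => m σ), k2] at h
  exact h

end Pool.Agent.Q204.BG
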